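import Pool.Agent.Helper33.MEI.Red

/-!
# Local minimality: the bad set of directions is small

`mn t` is the smallest coordinate of the point `t` of the flat triangle, `1 - mt t` the second
elementary symmetric function of the coordinates.
-/

set_option autoImplicit false

namespace Pool.Agent.Helper31.LOC

open Set MeasureTheory Filter Topology Helper33.MEI

/-- the smallest coordinate -/
noncomputable def mn (t : ℝ × ℝ) : ℝ := min t.1 (min t.2 (1 - t.1 - t.2))

theorem mn_cont : Continuous mn := by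
  unfold mn
  fun_prop

theorem mn_pos {t : ℝ × ℝ} (ht : t ∈ Dl) : 0 < mn t := by
  obtain ⟨h1, h2, h3⟩ := ht
  unfold mn
  refine lt_min h1 (lt_min h2 (by linarith))

theorem mn_le {t : ℝ × ℝ} (ht : t ∈ Dl) : mn t ≤ 1 / 3 := by
  obtain ⟨h1, h2, h3⟩ := ht
  unfold mn
  by_contra hcon
  push Not at hcon
  have a1 := lt_of_lt_of_le hcon (min_le_left _ _)
  have a2 := lt_of_lt_of_le hcon ((min_le_right _ _).trans (min_le_left _ _))
  have a3 := lt_of_lt_of_le hcon ((min_le_right _ _).trans (min_le_right _ _))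
  linarith

theorem e_pos {t : ℝ × ℝ} (ht : t ∈ Dl) : 0 < 1 - mt t := by
  obtain ⟨h1, h2, h3⟩ := ht
  have h4 : 0 < 1 - t.1 - t.2 := by linarith
  unfold Helper33.MEI.mt
  have := mul_pos h1 h2
  have := mul_pos h1 h4
  have := mul_pos h2 h4
  linarith

theorem inv_e_le {t : ℝ × ℝ} (ht : t ∈ Dl) :
    1 / (1 - mt t) ≤ 3 * (1 / (1 - t.1) + 1 / (1 - t.2) + 1 / (t.1 + t.2)) := by
  have he := e_pos ht
  obtain ⟨h1, h2, h3⟩ := ht
  have h4 : 0 < 1 - t.1 - t.2 := by linarith
  have k1 : 0 < 1 - t.1 := by linarith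
  have k2 : 0 < 1 - t.2 := by linarith
  have k3 : 0 < t.1 + t.2 := by linarith
  have p1 : 0 < 1 / (1 - t.1) := by positivity
  have p2 : 0 < 1 / (1 - t.2) := by positivity
  have p3 : 0 < 1 / (t.1 + t.2) := by positivity
  have em : 1 - mt t = t.1 * t.2 + t.1 * (1 - t.1 - t.2) + t.2 * (1 - t.1 - t.2) := by
    unfold Helper33.MEI.mt
    ring
  have m12 := mul_pos h1 h2
  have m14 := mul_pos h1 h4
  have m24 := mul_pos h2 h4
  rcases le_total (1 / 3) t.1 with c1 | c1
  · have : 1 / (1 - mt t) ≤ 3 * (1 / (1 - t.1)) := by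
      rw [mul_one_div, div_le_div_iff₀ he k1, em]
      nlinarith
    linarith
  · rcases le_total (1 / 3) t.2 with c2 | c2
    · have : 1 / (1 - mt t) ≤ 3 * (1 / (1 - t.2)) := by
        rw [mul_one_div, div_le_div_iff₀ he k2, em]
        nlinarith
      linarith
    · have : 1 / (1 - mt t) ≤ 3 * (1 / (t.1 + t.2)) := by
        rw [mul_one_div, div_le_div_iff₀ he k3, em]
        nlinarith
      linarith

/-- the product of inverse square roots -/
theorem int_rp : IntegrableOn (fun x : ℝ => x ^ (-(1 / 2) : ℝ)) (Ioo 0 1) := by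
  rw [intervalIntegral.integrableOn_Ioo_rpow_iff one_pos]
  norm_num

theorem int_rp' : IntegrableOn (fun x : ℝ => (1 - x) ^ (-(1 / 2) : ℝ)) (Ioo 0 1) := by
  have h : IntervalIntegrable (fun x : ℝ => x ^ (-(1 / 2) : ℝ)) volume 0 1 :=
    intervalIntegral.intervalIntegrable_rpow' (by norm_num)
  have h2 := (h.comp_sub_left 1).symm
  simp only [sub_self, sub_zero] at h2
  rw [intervalIntegrable_iff_integrableOn_Ioo_of_le zero_le_one] at h2
  exact h2

theorem half_inv {x y : ℝ} (hx : 0 < x) (hy : 0 < y) (hxy : y ≤ x) :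
    1 / x ≤ x ^ (-(1 / 2) : ℝ) * y ^ (-(1 / 2) : ℝ) := by
  have h1 : 1 / x = x ^ (-(1 / 2) : ℝ) * x ^ (-(1 / 2) : ℝ) := by
    rw [← Real.rpow_add hx]
    norm_num
    rw [Real.rpow_neg_one]
  rw [h1]
  apply mul_le_mul_of_nonneg_left _ (Real.rpow_nonneg hx.le _)
  exact Real.rpow_le_rpow_of_nonpos hy hxy (by norm_num)

theorem half_inv2 {x y : ℝ} (hx : 0 < x) (hy : 0 < y) :
    1 / (x + y) ≤ x ^ (-(1 / 2) : ℝ) * y ^ (-(1 / 2) : ℝ) := by
  have hs : 0 < x + y := by linarith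
  have h1 : 1 / (x + y) = (x + y) ^ (-(1 / 2) : ℝ) * (x + y) ^ (-(1 / 2) : ℝ) := by
    rw [← Real.rpow_add hs]
    norm_num
    rw [Real.rpow_neg_one]
  rw [h1]
  apply mul_le_mul
  · exact Real.rpow_le_rpow_of_nonpos hx (by linarith) (by norm_num)
  · exact Real.rpow_le_rpow_of_nonpos hy (by linarith) (by norm_num)
  · exact Real.rpow_nonneg hs.le _
  · exact Real.rpow_nonneg hx.le _

theorem int_prod {f g : ℝ → ℝ} (hf : IntegrableOn f (Ioo 0 1)) (hg : IntegrableOn g (Ioo 0 1)) :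
    IntegrableOn (fun t : ℝ × ℝ => f t.1 * g t.2) Dl := by
  have h := Integrable.mul_prod hf hg
  rw [Measure.prod_restrict] at h
  have h2 : IntegrableOn (fun t : ℝ × ℝ => f t.1 * g t.2) (Ioo 0 1 ×ˢ Ioo 0 1) := h
  apply h2.mono_set
  rintro t ⟨h1, h2, h3⟩
  exact ⟨⟨h1, by linarith⟩, h2, by linarith⟩

/-- `1 / e₂` is integrable on the simplex -/
theorem int_inv_e : IntegrableOn (fun t : ℝ × ℝ => 1 / (1 - mt t)) Dl := by
  have i1 := int_prod int_rp' int_rp
  have i2 := int_prod int_rp int_rp'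
  have i3 := int_prod int_rp int_rp
  have i4 : IntegrableOn (fun t : ℝ × ℝ =>
      3 * ((1 - t.1) ^ (-(1 / 2) : ℝ) * t.2 ^ (-(1 / 2) : ℝ) +
        t.1 ^ (-(1 / 2) : ℝ) * (1 - t.2) ^ (-(1 / 2) : ℝ) +
        t.1 ^ (-(1 / 2) : ℝ) * t.2 ^ (-(1 / 2) : ℝ))) Dl := ((i1.add i2).add i3).const_mul 3
  refine Integrable.mono' i4 ?_ ?_
  · have hm : Measurable fun t : ℝ × ℝ => 1 / (1 - mt t) := by
      have := mt_cont.measurable
      fun_prop
    exact hm.aestronglyMeasurable
  · filter_upwards [ae_restrict_mem Dl_meas] with t ht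
    have he := e_pos ht
    have h0 := inv_e_le ht
    rw [Real.norm_of_nonneg (by positivity)]
    refine h0.trans ?_
    obtain ⟨h1, h2, h3⟩ := ht
    have a1 := half_inv (x := 1 - t.1) (y := t.2) (by linarith) h2 (by linarith)
    have a2 := half_inv (x := 1 - t.2) (y := t.1) (by linarith) h1 (by linarith)
    have a3 := half_inv2 h1 h2
    rw [mul_comm ((1 - t.2) ^ _)] at a2
    linarith

/-- the bad directions -/
def ES (S : ℝ) : Set (ℝ × ℝ) := {t | t ∈ Dl ∧ mn t ^ 2 * (1 - mt t) < 375 * S}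

theorem ES_sub (S : ℝ) : ES S ⊆ Dl := fun _ h => h.1

theorem ES_meas (S : ℝ) : MeasurableSet (ES S) := by
  apply Dl_meas.inter
  exact measurableSet_lt ((mn_cont.pow 2).mul (continuous_const.sub mt_cont)).measurable
    measurable_const

theorem ES_mono {S T : ℝ} (h : S ≤ T) : ES S ⊆ ES T := fun _ ht => ⟨ht.1, by linarith [ht.2]⟩

theorem int_h (C D : ℝ) : IntegrableOn (fun t : ℝ × ℝ => C + D * (1 / (1 - mt t))) Dl := by
  apply Integrable.add
  · exact integrableOn_const Dl_fin.ne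
  · exact int_inv_e.const_mul D

/-- **the bad set is small** -/
theorem small_E {C D η : ℝ} (hC : 0 ≤ C) (hD : 0 ≤ D) (hη : 0 < η) :
    ∃ S1 : ℝ, 0 < S1 ∧ S1 ≤ 1e-4 ∧ ∀ S, S ≤ S1 →
      ∫ t in ES S, (C + D * (1 / (1 - mt t))) ≤ η := by
  set h : ℝ × ℝ → ℝ := fun t => C + D * (1 / (1 - mt t)) with hh
  have hint : IntegrableOn h Dl := int_h C D
  have hanti : Antitone (fun n : ℕ => ES (1e-4 * (1 / ((n : ℝ) + 1)))) := by
    intro m n hmn
    apply ES_mono
    have h1 : (m : ℝ) ≤ n := by exact_mod_cast hmn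
    have h2 : 1 / ((n : ℝ) + 1) ≤ 1 / ((m : ℝ) + 1) :=
      one_div_le_one_div_of_le (by positivity) (by linarith)
    linarith
  have hlim := tendsto_setIntegral_of_antitone (μ := volume) (f := h)
    (s := fun n : ℕ => ES (1e-4 * (1 / ((n : ℝ) + 1))))
    (fun n => ES_meas (1e-4 * (1 / ((n : ℝ) + 1)))) hanti
    ⟨0, hint.mono_set (ES_sub _)⟩
  have hemp : ⋂ n : ℕ, ES (1e-4 * (1 / ((n : ℝ) + 1))) = ∅ := by
    rw [Set.eq_empty_iff_forall_notMem]
    intro t ht
    rw [mem_iInter] at ht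
    have h0 := (ht 0).1
    have hp : 0 < mn t ^ 2 * (1 - mt t) := mul_pos (pow_pos (mn_pos h0) 2) (e_pos h0)
    have hl : Tendsto (fun n : ℕ => 375 * (1e-4 * (1 / ((n : ℝ) + 1)))) atTop (𝓝 0) := by
      have := ((tendsto_one_div_add_atTop_nhds_zero_nat (𝕜 := ℝ)).const_mul 1e-4).const_mul 375
      simpa using this
    have h1 : mn t ^ 2 * (1 - mt t) ≤ 0 := ge_of_tendsto' hl fun n => (ht n).2.le
    linarith
  rw [hemp, setIntegral_empty] at hlim
  have hev := (hlim.eventually (gt_mem_nhds hη)).exists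
  obtain ⟨n, hn⟩ := hev
  refine ⟨1e-4 * (1 / ((n : ℝ) + 1)), by positivity, ?_, ?_⟩
  · have : 1 / ((n : ℝ) + 1) ≤ 1 := by
      rw [div_le_one (by positivity)]
      have : (0 : ℝ) ≤ n := Nat.cast_nonneg n
      linarith
    linarith
  · intro S hS
    refine le_trans ?_ hn.le
    apply setIntegral_mono_set (hint.mono_set (ES_sub _))
    · filter_upwards [ae_restrict_mem (ES_meas _)] with t ht
      have := e_pos ht.1
      simp only [hh, Pi.zero_apply]
      positivity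
    · exact (ES_mono hS).eventuallyLE

end Pool.Agent.Helper31.LOC
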