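import Pool.Agent.Helper31.LOC.A
import Pool.Agent.Helper93.MEI.Meas
import Pool.Agent.Helper93.MEI.Side
import Pool.Agent.Helper29.MEI.Tent

/-!
# Local minimality: the pointwise certificate of a face cell

`gf` is the certificate on the flat triangle of directions: two tents with the loads of the arcs
and of the farthest point outside of the bad set `ES S`, a crude negative bound on `ES S`.
-/

set_option autoImplicit false

namespace Pool.Agent.Helper31.LOC

open Set MeasureTheory Filter Topology Helper33.MEI Helper93.MEI Helper80.CW Helper14.CW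
open Helper14.MEI2
open Helper29.MEI (tent)
open scoped RealInnerProductSpace

/-! ### real number lemmas -/

theorem w_bd {lam Q w e S : ℝ} (hS : 0 ≤ S) (hS1 : S ≤ 1e-4) (he : 0 < e) (he3 : e ≤ 1 / 3)
    (h12 : 12 * S ≤ e) (hlam : 3 / 4 ≤ lam) (hid : lam ^ 2 * (1 - e) = 1 + Q) (hQ : Q ≤ S)
    (hw0 : 0 ≤ w) (hw1 : w ≤ 1 + S) (hside : (lam - 1) * w - lam * S ≤ Q) :
    e * w ≤ 5.6 * S ∧ 1 ≤ lam ∧ -(1.3 * S) ≤ Q ∧ lam ≤ 1.225 := by
  have hlam1 : 1 ≤ lam := by
    by_contra hcon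
    push Not at hcon
    have hg : 0 ≤ 1 - lam := by linarith
    have h1 : (1 - lam) * w ≤ (1 - lam) * (1 + lam) :=
      mul_le_mul_of_nonneg_left (by linarith) hg
    have h2 : lam ^ 2 * e ≤ lam * S := by nlinarith
    have h3 : lam * e ≤ S := by
      have h4 : lam * (lam * e) ≤ lam * S := by linarith [h2, sq lam, mul_assoc lam lam e]
      exact le_of_mul_le_mul_left h4 (by linarith)
    nlinarith
  have hlam2 : lam ≤ 1.225 := by
    have h1 : lam ^ 2 * (2 / 3) ≤ 1.0001 := by nlinarith [sq_nonneg lam]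
    nlinarith
  have hbw : 0 ≤ (lam - 1) * w := mul_nonneg (by linarith) hw0
  have hlS : lam * S ≤ 1.225 * S := mul_le_mul_of_nonneg_right hlam2 hS
  refine ⟨?_, hlam1, by linarith, hlam2⟩
  have h1 : (lam - 1) * w ≤ 2.225 * S := by linarith
  have h2 : 0.8979 * e ≤ (lam - 1) * 2.225 := by
    have h3 : (lam - 1) * ((lam + 1) * (1 - e)) = Q + e := by linear_combination hid
    have h4 : (lam + 1) * (1 - e) ≤ 2.225 := by nlinarith
    have h5 := mul_le_mul_of_nonneg_left h4 (show (0 : ℝ) ≤ lam - 1 by linarith)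
    have h6 : 0.8979 * e ≤ Q + e := by
      have : lam * S ≤ 1.225 * (e / 12) := by
        refine hlS.trans ?_
        linarith
      linarith
    linarith
  have h3 := mul_le_mul_of_nonneg_right h2 hw0
  nlinarith

theorem kap_le {w c d : ℝ} (hw0 : 0 ≤ w) (hwc : w ≤ c) (hd : 0 < d) (hcd : 0.127 ≤ d * (1 - c / 2))
    (hc : c < 2) : 0.127 * w / (1 - w / 2) ≤ d * w := by
  have h1 : 0 < 1 - w / 2 := by linarith
  rw [div_le_iff₀ h1]
  have h2 : d * (1 - c / 2) ≤ d * (1 - w / 2) := mul_le_mul_of_nonneg_left (by linarith) hd.le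
  nlinarith

/-- the good directions -/
theorem off_core {t1 t2 t3 m lam Q w e S y1 y2 y3 L s u v r : ℝ} (hS : 0 ≤ S) (hS1 : S ≤ 1e-4)
    (he : 0 < e) (he3 : e ≤ 1 / 3) (hlam : 3 / 4 ≤ lam) (hid : lam ^ 2 * (1 - e) = 1 + Q)
    (hQ : Q ≤ S) (hw0 : 0 ≤ w) (hw1 : w ≤ 1 + S) (hside : (lam - 1) * w - lam * S ≤ Q)
    (hr0 : 0 < r) (hr : r ^ 2 = 1 - e) (hm : 0 < m) (hm3 : m ≤ 1 / 3) (hme : 375 * S ≤ m ^ 2 * e)
    (m1 : m ≤ t1) (m2 : m ≤ t2) (m3 : m ≤ t3) (hy1 : 0 ≤ y1) (hy2 : 0 ≤ y2) (hy3 : 0 ≤ y3)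
    (hface : Q + w = 2 * (lam * (t1 * y1 + t2 * y2 + t3 * y3)))
    (hwY : w ≤ 3 / 2 * (y1 + y2 + y3) ^ 2)
    (hL : u * L ≤ 2 * (t1 * y1 + t2 * y2 + t3 * y3))
    (hs : v * s ≤ 2 * (t1 * y1 + t2 * y2 + t3 * y3)) :
    2.07 * (0.56 * (u / r) * L + 0.36 * (v / r) * s) ≤
      (3.89 / 2 + 1 / 8) * Q - 0.127 * w / (1 - w / 2) := by
  have h12 : 12 * S ≤ e := by nlinarith [sq_nonneg m, mul_pos hm he]
  obtain ⟨g1, g2, g3, g4⟩ := w_bd hS hS1 he he3 h12 hlam hid hQ hw0 hw1 hside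
  set T : ℝ := t1 * y1 + t2 * y2 + t3 * y3 with hT
  set Y : ℝ := y1 + y2 + y3 with hY
  have hY0 : 0 ≤ Y := by positivity
  have hTY : m * Y ≤ T := by
    have a1 := mul_le_mul_of_nonneg_right m1 hy1
    have a2 := mul_le_mul_of_nonneg_right m2 hy2
    have a3 := mul_le_mul_of_nonneg_right m3 hy3
    rw [hT, hY]
    linarith
  have hT0 : 0 ≤ T := le_trans (by positivity) hTY
  -- the third term
  have w1 : w ≤ 5.6 / 375 * m ^ 2 := by
    have : e * w ≤ e * (5.6 / 375 * m ^ 2) := by nlinarith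
    exact le_of_mul_le_mul_left this he
  have w2 : w ≤ 0.14967 * (m * Y) := by
    have h1 : w ^ 2 ≤ (0.14967 * (m * Y)) ^ 2 := by
      have h2 : w * w ≤ (5.6 / 375 * m ^ 2) * (3 / 2 * Y ^ 2) :=
        mul_le_mul w1 hwY hw0 (by positivity)
      have h3 : 0 ≤ (m * Y) ^ 2 := sq_nonneg _
      have h4 : (5.6 / 375 * m ^ 2) * (3 / 2 * Y ^ 2) = 0.0224 * (m * Y) ^ 2 := by ring
      nlinarith
    exact (pow_le_pow_iff_left₀ hw0 (by positivity) two_ne_zero).1 h1
  have w3 : w ≤ 0.0017 := by nlinarith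
  have w4 := kap_le (d := 0.1272) hw0 w3 (by norm_num) (by norm_num) (by norm_num)
  have w5 : w ≤ 0.14967 * (lam * T) := by
    have : T ≤ lam * T := by nlinarith
    linarith
  -- the loads
  have hlr : 0.9999 ≤ lam * r := by
    have h1 : (0.9999 : ℝ) ^ 2 ≤ (lam * r) ^ 2 := by
      rw [mul_pow, hr, hid]
      norm_num
      linarith
    exact (pow_le_pow_iff_left₀ (by norm_num) (by positivity) two_ne_zero).1 h1
  have hrr : T / r ≤ 1.00011 * (lam * T) := by
    rw [div_le_iff₀ hr0]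
    nlinarith
  have l1 : 0.56 * (u / r) * L ≤ 0.56 * (2 * (T / r)) := by
    have : u / r * L = u * L / r := by ring
    rw [mul_assoc, this]
    have h2 := div_le_div_of_nonneg_right hL hr0.le
    have h3 : 2 * T / r = 2 * (T / r) := by ring
    linarith
  have l2 : 0.36 * (v / r) * s ≤ 0.36 * (2 * (T / r)) := by
    have : v / r * s = v * s / r := by ring
    rw [mul_assoc, this]
    have h2 := div_le_div_of_nonneg_right hs hr0.le
    have h3 : 2 * T / r = 2 * (T / r) := by ring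
    linarith
  have hlT : 0 ≤ lam * T := by positivity
  nlinarith

/-- the bad directions -/
theorem on_core {lam Q w e S : ℝ} (hS : 0 ≤ S) (hS1 : S ≤ 1e-4) (he : 0 < e) (he3 : e ≤ 1 / 3)
    (hlam : 3 / 4 ≤ lam) (hid : lam ^ 2 * (1 - e) = 1 + Q) (hQ : Q ≤ S)
    (hw0 : 0 ≤ w) (hw1 : w ≤ 1 + S) (hside : (lam - 1) * w - lam * S ≤ Q) :
    -(5 * S + 0.26 * min 1 (12 * S / e)) ≤ (3.89 / 2 + 1 / 8) * Q - 0.127 * w / (1 - w / 2) := by
  have w4 := kap_le (c := 1.0001) (d := 0.2541) hw0 (by linarith) (by norm_num) (by norm_num)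
    (by norm_num)
  rcases le_or_gt (12 * S) e with h12 | h12
  · obtain ⟨g1, g2, g3, g4⟩ := w_bd hS hS1 he he3 h12 hlam hid hQ hw0 hw1 hside
    have h1 : 0.127 * w / (1 - w / 2) ≤ 0.26 * min 1 (12 * S / e) := by
      refine w4.trans ?_
      rcases le_total 1 (12 * S / e) with h | h
      · rw [min_eq_left h]; linarith
      · rw [min_eq_right h, ← mul_div_assoc, le_div_iff₀ he]
        nlinarith
    norm_num at h1 ⊢
    linarith
  · have h1 : 1 ≤ 12 * S / e := by
      rw [le_div_iff₀ he]; linarith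
    rw [min_eq_left h1]
    have h2 : -(2.4 * S) ≤ Q := by
      rcases le_or_gt 1 lam with h | h
      · have hlam2 : lam ≤ 1.225 := by
          have h1 : lam ^ 2 * (2 / 3) ≤ 1.0001 := by nlinarith [sq_nonneg lam]
          nlinarith
        have hbw : 0 ≤ (lam - 1) * w := mul_nonneg (by linarith) hw0
        nlinarith
      · have h3 : (1 - lam) * (1 + lam - w) ≤ S := by nlinarith [mul_pos he (pow_pos (show 0 < lam by linarith) 2)]
        have h4 : (1 - lam) * 0.7499 ≤ S := by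
          refine le_trans ?_ h3
          apply mul_le_mul_of_nonneg_left _ (by linarith)
          linarith
        nlinarith
    norm_num
    linarith

/-! ### the certificate -/

/-- the main part -/
noncomputable def G0 (L s : ℝ) (N N' : Fin 3 → ℝ) (t : ℝ × ℝ) : ℝ :=
  2.07 * (0.56 * (tent (N 0) (N 1) (N 2) t.1 t.2 / √(mt t)) * L +
    0.36 * (tent (N' 0) (N' 1) (N' 2) t.1 t.2 / √(mt t)) * s)

/-- the crude bound -/
noncomputable def G1 (S : ℝ) (t : ℝ × ℝ) : ℝ := 5 * S + 0.26 * min 1 (12 * S / (1 - mt t))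

open Classical in
/-- the certificate -/
noncomputable def gf (S L s : ℝ) (N N' : Fin 3 → ℝ) (t : ℝ × ℝ) : ℝ :=
  if t ∈ ES S then -(G1 S t) else G0 L s N N' t

theorem tent_le {A B C x y : ℝ} (hA : 0 < A) (hB : 0 < B) (hC : 0 < C) :
    tent A B C x y * A ≤ x ∧ tent A B C x y * B ≤ y ∧ tent A B C x y * C ≤ 1 - x - y := by
  unfold tent
  refine ⟨?_, ?_, ?_⟩
  · rw [← le_div_iff₀ hA]; exact min_le_left _ _
  · rw [← le_div_iff₀ hB]; exact (min_le_right _ _).trans (min_le_left _ _)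
  · rw [← le_div_iff₀ hC]; exact (min_le_right _ _).trans (min_le_right _ _)

/-- **pointwise inequality** -/
theorem gf_pt {a : Fin 4 → E3} (ha : ∀ i j, i ≠ j → dist (a i) (a j) = 1) {S L s : ℝ}
    {N N' : Fin 3 → ℝ} (hN : ∀ k, 0 < N k) (hN' : ∀ k, 0 < N' k) (hS : 0 ≤ S) (hS1 : S ≤ 1e-4)
    {p q : E3} (hpq : ‖p - q‖ = 1) (hq : Pl a q) (hQp : Qv a 0 p ≤ S)
    (hQq : ∀ i, Qv a i q ≤ S)
    (b1 : 0 < bar a 1 p) (b2 : 0 < bar a 2 p) (b3 : 0 < bar a 3 p)
    (hl : 3 / 4 ≤ 1 - bar a 0 p)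
    (hL : L ≤ 2 * (N 0 * yv a 0 1 q + N 1 * yv a 0 2 q + N 2 * yv a 0 3 q))
    (hs : s ≤ 2 * (N' 0 * yv a 0 1 q + N' 1 * yv a 0 2 q + N' 2 * yv a 0 3 q)) :
    gf S L s N N' (tx a p) ≤
      (3.89 / 2 + 1 / 8) * Qv a 0 p - 0.127 * ‖a 0 - q‖ ^ 2 / (1 - ‖a 0 - q‖ ^ 2 / 2) := by
  have hg := gram_of_dist ha
  set lam : ℝ := 1 - bar a 0 p with hlam
  have hl0 : 0 < lam := by linarith
  set t : ℝ × ℝ := tx a p with ht
  have hsum := bar_sum hg p
  have t1 : lam * t.1 = bar a 1 p := by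
    rw [ht]; unfold tx; simp only; rw [← hlam]; field_simp
  have t2 : lam * t.2 = bar a 2 p := by
    rw [ht]; unfold tx; simp only; rw [← hlam]; field_simp
  have t3 : lam * (1 - t.1 - t.2) = bar a 3 p := by
    have : lam * (1 - t.1 - t.2) = lam - lam * t.1 - lam * t.2 := by ring
    rw [this, t1, t2]
    linarith
  have htD : t ∈ Dl := by
    refine ⟨?_, ?_, ?_⟩
    · exact pos_of_mul_pos_right (t1 ▸ b1) hl0.le
    · exact pos_of_mul_pos_right (t2 ▸ b2) hl0.le
    · have := pos_of_mul_pos_right (t3 ▸ b3) hl0.le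
      linarith
  have he := e_pos htD
  have he3 : 1 - mt t ≤ 1 / 3 := by have := mt_ge (t := t); linarith
  have hid : lam ^ 2 * (1 - (1 - mt t)) = 1 + Qv a 0 p := by
    have := dist_mt ha (x := p) (by rw [← hlam]; exact hl0.ne')
    rw [← ht, ← hlam] at this
    unfold Qv
    rw [this]
    ring
  set w : ℝ := ‖a 0 - q‖ ^ 2 with hw
  have hw0 : 0 ≤ w := by positivity
  have hw1 : w ≤ 1 + S := by
    have := hQq 0
    unfold Qv at this
    rw [norm_sub_rev, ← hw] at this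
    linarith
  have hside : (lam - 1) * w - lam * S ≤ Qv a 0 p := by
    have h1 := side_id hg p q
    rw [hpq, ← hw] at h1
    have c1 := mul_le_mul_of_nonneg_left (hQq 1) b1.le
    have c2 := mul_le_mul_of_nonneg_left (hQq 2) b2.le
    have c3 := mul_le_mul_of_nonneg_left (hQq 3) b3.le
    have h2 : lam * S = bar a 1 p * S + bar a 2 p * S + bar a 3 p * S := by
      rw [hlam]
      have : 1 - bar a 0 p = bar a 1 p + bar a 2 p + bar a 3 p := by linarith
      rw [this]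
      ring
    have h3 : lam - 1 = - bar a 0 p := by rw [hlam]; ring
    rw [h3, h2]
    linarith
  unfold gf
  split_ifs with hE
  · unfold G1
    exact on_core hS hS1 he he3 hl hid hQp hw0 hw1 hside
  · have hme : 375 * S ≤ mn t ^ 2 * (1 - mt t) := by
      by_contra hcon
      exact hE ⟨htD, not_le.1 hcon⟩
    have y1 := yv_nonneg hq (i := 0) (j := 1) (by decide)
    have y2 := yv_nonneg hq (i := 0) (j := 2) (by decide)
    have y3 := yv_nonneg hq (i := 0) (j := 3) (by decide)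
    have hface := face_id hg p q
    rw [hpq, ← hw] at hface
    have hface' : Qv a 0 p + w = 2 * (lam * (t.1 * yv a 0 1 q + t.2 * yv a 0 2 q +
        (1 - t.1 - t.2) * yv a 0 3 q)) := by
      rw [hface, ← t1, ← t2, ← t3]
      ring
    have htn : ∀ M : Fin 3 → ℝ, (∀ k, 0 < M k) → 0 ≤ tent (M 0) (M 1) (M 2) t.1 t.2 := by
      intro M hM
      obtain ⟨d1, d2, d3⟩ := htD
      unfold tent
      exact le_min (div_nonneg d1.le (hM 0).le)
        (le_min (div_nonneg d2.le (hM 1).le) (div_nonneg (by linarith) (hM 2).le))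
    have hload : ∀ (M : Fin 3 → ℝ) (x : ℝ), (∀ k, 0 < M k) →
        x ≤ 2 * (M 0 * yv a 0 1 q + M 1 * yv a 0 2 q + M 2 * yv a 0 3 q) →
        tent (M 0) (M 1) (M 2) t.1 t.2 * x ≤ 2 * (t.1 * yv a 0 1 q + t.2 * yv a 0 2 q +
          (1 - t.1 - t.2) * yv a 0 3 q) := by
      intro M x hM hx
      have h0 := htn M hM
      obtain ⟨k1, k2, k3⟩ := tent_le (x := t.1) (y := t.2) (hM 0) (hM 1) (hM 2)
      have h1 := mul_le_mul_of_nonneg_left hx h0
      have j1 := mul_le_mul_of_nonneg_right k1 y1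
      have j2 := mul_le_mul_of_nonneg_right k2 y2
      have j3 := mul_le_mul_of_nonneg_right k3 y3
      nlinarith
    have hrp : 0 < √(mt t) := Real.sqrt_pos.2 mt_pos
    have hr2 : √(mt t) ^ 2 = 1 - (1 - mt t) := by rw [Real.sq_sqrt mt_pos.le]; ring
    unfold G0
    refine off_core (m := mn t) hS hS1 he he3 hl hid hQp hw0 hw1 hside hrp hr2 (mn_pos htD)
      (mn_le htD) hme ?_ ?_ ?_ y1 y2 y3 hface' ?_ (hload N L hN hL) (hload N' s hN' hs)
    · exact min_le_left _ _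
    · exact (min_le_right _ _).trans (min_le_left _ _)
    · exact (min_le_right _ _).trans (min_le_right _ _)
    · exact delta_le_sq hg hq

end Pool.Agent.Helper31.LOC
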