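import Pool.Agent.Helper31.LOC.B
import Pool.Agent.Helper55.MEI.Br

/-!
# Local minimality: the face theorem
-/

set_option autoImplicit false

namespace Pool.Agent.Helper31.LOC

open Set MeasureTheory Filter Topology Helper33.MEI Helper93.MEI Helper80.CW Helper14.CW
open Helper14.MEI2 Pool.Agent.Helper73.MEI
open Helper29.MEI (tent tent_cont tent_dir)
open scoped RealInnerProductSpace

theorem rt_ge (t : ℝ × ℝ) : 0.8 ≤ √(mt t) := by
  apply Real.le_sqrt_of_sq_le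
  have := mt_ge (t := t)
  norm_num
  linarith

theorem rt_pos (t : ℝ × ℝ) : 0 < √(mt t) := Real.sqrt_pos.2 mt_pos

theorem rt_cont : Continuous fun t => √(mt t) := Real.continuous_sqrt.comp mt_cont

theorem td_cont (A B C : ℝ) : Continuous fun t : ℝ × ℝ => tent A B C t.1 t.2 / √(mt t) :=
  (tent_cont A B C).div rt_cont fun t => (rt_pos t).ne'

theorem G0_cont (L s : ℝ) (N N' : Fin 3 → ℝ) : Continuous (G0 L s N N') := by
  unfold G0
  have h1 := td_cont (N 0) (N 1) (N 2)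
  have h2 := td_cont (N' 0) (N' 1) (N' 2)
  exact continuous_const.mul (((continuous_const.mul h1).mul continuous_const).add
    ((continuous_const.mul h2).mul continuous_const))

theorem G1_meas (S : ℝ) : Measurable (G1 S) := by
  unfold G1
  have h1 := mt_cont.measurable
  exact measurable_const.add (measurable_const.mul (measurable_const.min
    (measurable_const.div (measurable_const.sub h1))))

theorem gf_meas (S L s : ℝ) (N N' : Fin 3 → ℝ) : Measurable (gf S L s N N') := by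
  classical
  unfold gf
  exact Measurable.ite (ES_meas S) (G1_meas S).neg (G0_cont L s N N').measurable

theorem G1_bd {S : ℝ} (hS : 0 ≤ S) {t : ℝ × ℝ} (ht : t ∈ Dl) : 0 ≤ G1 S t ∧
    G1 S t ≤ 5 * S + 0.26 ∧ G1 S t ≤ S * (5 + 3.12 * (1 / (1 - mt t))) := by
  have he := e_pos ht
  have h1 : 0 ≤ 12 * S / (1 - mt t) := by positivity
  unfold G1
  refine ⟨?_, ?_, ?_⟩
  · have := le_min zero_le_one h1
    positivity
  · have := min_le_left 1 (12 * S / (1 - mt t))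
    linarith
  · have := min_le_right 1 (12 * S / (1 - mt t))
    have e : 12 * S / (1 - mt t) = 12 * S * (1 / (1 - mt t)) := by ring
    rw [e] at this ⊢
    nlinarith

theorem tent_bd {A B C c : ℝ} (hA : 0 < A) (hB : 0 < B) (hC : 0 < C) (hc : 0 < c)
    (hs : 1 ≤ c * (A + B + C)) {t : ℝ × ℝ} (ht : t ∈ Dl) :
    0 ≤ tent A B C t.1 t.2 / √(mt t) ∧ tent A B C t.1 t.2 / √(mt t) ≤ 1.25 * c := by
  obtain ⟨d1, d2, d3⟩ := ht
  have h0 : 0 ≤ tent A B C t.1 t.2 := by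
    unfold tent
    exact le_min (div_nonneg d1.le hA.le) (le_min (div_nonneg d2.le hB.le)
      (div_nonneg (by linarith) hC.le))
  obtain ⟨k1, k2, k3⟩ := tent_le (x := t.1) (y := t.2) hA hB hC
  have h1 : tent A B C t.1 t.2 * (A + B + C) ≤ 1 := by linarith
  have h2 : tent A B C t.1 t.2 ≤ c := by
    have hp : 0 < A + B + C := by positivity
    have h3 : tent A B C t.1 t.2 * (A + B + C) ≤ c * (A + B + C) := h1.trans hs
    exact le_of_mul_le_mul_right h3 hp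
  have hr := rt_ge t
  refine ⟨div_nonneg h0 (rt_pos t).le, ?_⟩
  rw [div_le_iff₀ (rt_pos t)]
  nlinarith

theorem G0_bd {S L s : ℝ} {N N' : Fin 3 → ℝ} (hS : 0 ≤ S)
    (hN : ∀ k, 0.0005 ≤ N k) (hN' : ∀ k, 0.001 ≤ N' k) (hL0 : 0 ≤ L) (hL : L ≤ S)
    (hs0 : 0 ≤ s) (hs : s ≤ S) {t : ℝ × ℝ} (ht : t ∈ Dl) :
    0 ≤ G0 L s N N' t ∧ G0 L s N N' t ≤ 1280 * S := by
  have n0 := hN 0
  have n1 := hN 1
  have n2 := hN 2
  have m0 := hN' 0
  have m1 := hN' 1
  have m2 := hN' 2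
  obtain ⟨a1, a2⟩ := tent_bd (A := N 0) (B := N 1) (C := N 2) (c := 667) (by linarith)
    (by linarith) (by linarith) (by norm_num) (by linarith) ht
  obtain ⟨b1, b2⟩ := tent_bd (A := N' 0) (B := N' 1) (C := N' 2) (c := 334) (by linarith)
    (by linarith) (by linarith) (by norm_num) (by linarith) ht
  unfold G0
  constructor
  · positivity
  · have c1 := mul_le_mul a2 hL hL0 (by norm_num)
    have c2 := mul_le_mul b2 hs hs0 (by norm_num)
    nlinarith

/-- the tent integral in the measure of directions -/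
theorem tent_int {A B C : ℝ} (hA : 0 < A) (hB : 0 < B) (hC : 0 < C) :
    0.2095 / (A + B + C) ≤ (√2)⁻¹ * ∫ t in Dl, tent A B C t.1 t.2 / √(mt t) * M3 t := by
  rw [Pool.Agent.Helper55.Sx.deg1 fun t => tent A B C t.1 t.2]
  refine (tent_dir hA hB hC).trans (le_of_eq ?_)
  have e1 : Helper29.MEI.TD = Pool.Agent.Helper55.Sx.Sim := rfl
  rw [e1]
  congr 2
  funext t
  rw [← Pool.Agent.Helper55.Sx.mt_mm]
  congr 2
  unfold Helper29.MEI.e2 Helper33.MEI.mt
  ring

theorem G0_int {L s : ℝ} {N N' : Fin 3 → ℝ} (hN : ∀ k, 0 < N k) (hN' : ∀ k, 0 < N' k)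
    (hsN : N 0 + N 1 + N 2 ≤ 0.2428) (hsN' : N' 0 + N' 1 + N' 2 ≤ 1.2285)
    (hL0 : 0 ≤ L) (hs0 : 0 ≤ s) :
    L + 0.127 * s ≤ (√2)⁻¹ * ∫ t in Dl, G0 L s N N' t * M3 t := by
  have i1 : ∀ A B C : ℝ, IntegrableOn (fun t : ℝ × ℝ => tent A B C t.1 t.2 / √(mt t) * M3 t) Dl := by
    intro A B C
    have hc := (td_cont A B C).mul M3_cont
    obtain ⟨c, -, hb⟩ := bd_Dl hc
    apply Measure.integrableOn_of_bounded (M := c) Dl_fin.ne hc.aestronglyMeasurable
    filter_upwards [ae_restrict_mem Dl_meas] with t ht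
    exact hb t ht
  have e1 : ∫ t in Dl, G0 L s N N' t * M3 t =
      (2.07 * 0.56 * L) * (∫ t in Dl, tent (N 0) (N 1) (N 2) t.1 t.2 / √(mt t) * M3 t) +
      (2.07 * 0.36 * s) * ∫ t in Dl, tent (N' 0) (N' 1) (N' 2) t.1 t.2 / √(mt t) * M3 t := by
    rw [← integral_const_mul, ← integral_const_mul,
      ← integral_add ((i1 _ _ _).const_mul _) ((i1 _ _ _).const_mul _)]
    congr 1
    funext t
    unfold G0
    ring
  have t1 := tent_int (hN 0) (hN 1) (hN 2)
  have t2 := tent_int (hN' 0) (hN' 1) (hN' 2)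
  have hp : 0 < N 0 + N 1 + N 2 := by
    have := hN 0
    have := hN 1
    have := hN 2
    positivity
  have hp' : 0 < N' 0 + N' 1 + N' 2 := by
    have := hN' 0
    have := hN' 1
    have := hN' 2
    positivity
  have r1 : (0.2095 : ℝ) / 0.2428 ≤ 0.2095 / (N 0 + N 1 + N 2) :=
    div_le_div_of_nonneg_left (by norm_num) hp hsN
  have r2 : (0.2095 : ℝ) / 1.2285 ≤ 0.2095 / (N' 0 + N' 1 + N' 2) :=
    div_le_div_of_nonneg_left (by norm_num) hp' hsN'
  have k1 : (0.86284 : ℝ) ≤ 0.2095 / 0.2428 := by norm_num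
  have k2 : (0.17053 : ℝ) ≤ 0.2095 / 1.2285 := by norm_num
  have q1 := mul_le_mul_of_nonneg_left (k1.trans (r1.trans t1)) hL0
  have q2 := mul_le_mul_of_nonneg_left (k2.trans (r2.trans t2)) hs0
  rw [e1]
  set I1 := ∫ t in Dl, tent (N 0) (N 1) (N 2) t.1 t.2 / √(mt t) * M3 t with hI1
  set I2 := ∫ t in Dl, tent (N' 0) (N' 1) (N' 2) t.1 t.2 / √(mt t) * M3 t with hI2
  have e2 : (√2)⁻¹ * (2.07 * 0.56 * L * I1 + 2.07 * 0.36 * s * I2) =
      1.1592 * (L * ((√2)⁻¹ * I1)) + 0.7452 * (s * ((√2)⁻¹ * I2)) := by ring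
  rw [e2]
  nlinarith

/-- **the face theorem** -/
theorem face_small : ∃ S1 : ℝ, 0 < S1 ∧ S1 ≤ 1e-4 ∧ ∀ {a : Fin 4 → E3} {K : Set E3}
    {σ : Measure (E3 × E3)} [IsFiniteMeasure σ], PM K σ →
    (∀ i j, i ≠ j → dist (a i) (a j) = 1) → (∀ x ∈ K, Pl a x) →
    (∀ p, (∀ q ∈ K, ‖p - q‖ ≤ 1) → p ∈ K) → ∀ S : ℝ, 0 ≤ S → S ≤ S1 →
    (∀ i, ∀ q ∈ K, Qv a i q ≤ S) → ∀ (τ : Equiv.Perm (Fin 4)) (N N' : Fin 3 → ℝ),
    (∀ k, 0.0005 ≤ N k) → (∀ k, 0.001 ≤ N' k) → N 0 + N 1 + N 2 ≤ 0.2428 →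
    N' 0 + N' 1 + N' 2 ≤ 1.2285 → ∀ L s : ℝ, 0 ≤ L → L ≤ S → 0 ≤ s → s ≤ S →
    (∀ q ∈ K, L ≤ 2 * (N 0 * yv a (τ 0) (τ 1) q + N 1 * yv a (τ 0) (τ 2) q +
      N 2 * yv a (τ 0) (τ 3) q)) →
    (∀ q ∈ K, s ≤ 2 * (N' 0 * yv a (τ 0) (τ 1) q + N' 1 * yv a (τ 0) (τ 2) q +
      N' 2 * yv a (τ 0) (τ 3) q)) →
    L + 0.127 * s - 0.005 * S ≤ Wi a (τ 0) K σ 3.89 := by
  obtain ⟨S1, h0, h1, hsm⟩ := small_E (C := 2570) (D := 6.24) (η := 0.005) (by norm_num)
    (by norm_num) (by norm_num)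
  refine ⟨S1, h0, h1, ?_⟩
  intro a K σ _ hpm ha hp hull S hS hSS hQ τ N N' hN hN' hsN hsN' L s hL0 hLS hs0 hsS hL hs
  have hS1 : S ≤ 1e-4 := hSS.trans h1
  have hNp : ∀ k, 0 < N k := fun k => lt_of_lt_of_le (by norm_num) (hN k)
  have hNp' : ∀ k, 0 < N' k := fun k => lt_of_lt_of_le (by norm_num) (hN' k)
  obtain ⟨c0, hc0, hcb⟩ := bd_Dl (G0_cont L s N N')
  have hgC : ∀ t ∈ Dl, |gf S L s N N' t| ≤ c0 + (5 * S + 0.26) := by
    intro t ht
    obtain ⟨g1, g2, _⟩ := G1_bd hS ht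
    unfold gf
    split_ifs
    · rw [abs_neg, abs_of_nonneg g1]; linarith
    · have := hcb t ht
      linarith
  have hQ' : ∀ i, ∀ q ∈ K, Qv a i q ≤ 3 / 16 := fun i q hq => (hQ i q hq).trans (by linarith)
  have ha' : ∀ i j, i ≠ j → dist (a (τ i)) (a (τ j)) = 1 :=
    fun i j hij => ha _ _ fun h => hij (τ.injective h)
  have hmain := face_meas hpm ha hull hQ' τ (A := 3.89) (by norm_num)
    (g := gf S L s N N') (C := c0 + (5 * S + 0.26))
    (gf_meas S L s N N').aestronglyMeasurable hgC (by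
      intro p hpK q hqK hpq b1 b2 b3 hl
      have h2 := gf_pt (a := fun i => a (τ i)) ha' (S := S) (L := L) (s := s) hNp hNp' hS hS1
        (p := p) (q := q) hpq (Pl_perm τ (hp q hqK)) (hQ (τ 0) p hpK)
        (fun i => hQ (τ i) q hqK) (by rw [bar_perm]; exact b1) (by rw [bar_perm]; exact b2)
        (by rw [bar_perm]; exact b3) (by rw [bar_perm]; exact hl) (hL q hqK) (hs q hqK)
      unfold tx at h2
      simp only [bar_perm] at h2
      exact h2)
  refine le_trans ?_ hmain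
  have hG0 := G0_int (L := L) (s := s) hNp hNp' hsN hsN' hL0 hs0
  have hE := hsm S hSS
  set H : ℝ × ℝ → ℝ := fun t => 2570 + 6.24 * (1 / (1 - mt t)) with hH
  have hHint : IntegrableOn H Dl := int_h 2570 6.24
  have hpt : ∀ t ∈ Dl, G0 L s N N' t * M3 t - (ES S).indicator (fun t => S * H t) t ≤
      gf S L s N N' t * M3 t := by
    intro t ht
    unfold gf
    by_cases hE : t ∈ ES S
    · rw [if_pos hE, indicator_of_mem hE]
      obtain ⟨g1, _, g3⟩ := G1_bd hS ht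
      obtain ⟨g4, g5⟩ := G0_bd (L := L) (s := s) hS hN hN' hL0 hLS hs0 hsS ht
      have hM0 := M3_pos t
      have hM := M3_le t
      have h3 : G0 L s N N' t + G1 S t ≤ S * (1285 + 3.12 * (1 / (1 - mt t))) := by linarith
      have h4 : 0 ≤ G0 L s N N' t + G1 S t := by linarith
      have h5 : (G0 L s N N' t + G1 S t) * M3 t ≤ S * (1285 + 3.12 * (1 / (1 - mt t))) * 2 :=
        mul_le_mul h3 hM hM0.le (h4.trans h3)
      simp only [hH]
      linarith
    · rw [if_neg hE, indicator_of_notMem hE, sub_zero]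
  have hi1 : IntegrableOn (fun t => G0 L s N N' t * M3 t) Dl := by
    have hc := (G0_cont L s N N').mul M3_cont
    obtain ⟨c, -, hb⟩ := bd_Dl hc
    apply Measure.integrableOn_of_bounded (M := c) Dl_fin.ne hc.aestronglyMeasurable
    filter_upwards [ae_restrict_mem Dl_meas] with t ht
    exact hb t ht
  have hi2 : IntegrableOn (fun t => gf S L s N N' t * M3 t) Dl := by
    apply Measure.integrableOn_of_bounded (M := (c0 + (5 * S + 0.26)) * 2) Dl_fin.ne
      ((gf_meas S L s N N').mul M3_cont.measurable).aestronglyMeasurable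
    filter_upwards [ae_restrict_mem Dl_meas] with t ht
    show ‖gf S L s N N' t * M3 t‖ ≤ _
    rw [norm_mul, Real.norm_eq_abs, Real.norm_eq_abs, abs_of_pos (M3_pos t)]
    exact mul_le_mul (hgC t ht) (M3_le t) (M3_pos t).le (by positivity)
  have hi3 : IntegrableOn ((ES S).indicator fun t => S * H t) Dl :=
    (hHint.const_mul S).indicator (ES_meas S)
  have hI := setIntegral_mono_on (hi1.sub hi3) hi2 Dl_meas hpt
  rw [show (∫ x in Dl, ((fun t => G0 L s N N' t * M3 t) -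
    (ES S).indicator fun t => S * H t) x) = (∫ t in Dl, G0 L s N N' t * M3 t) -
      ∫ t in Dl, (ES S).indicator (fun t => S * H t) t from integral_sub hi1 hi3] at hI
  have e1 : ∫ t in Dl, (ES S).indicator (fun t => S * H t) t = S * ∫ t in ES S, H t := by
    rw [setIntegral_indicator (ES_meas S), inter_eq_self_of_subset_right (ES_sub S),
      integral_const_mul]
  rw [e1] at hI
  have hs2 : 0 < (√2)⁻¹ := by positivity
  have hs3 : (√2)⁻¹ ≤ 1 := by
    apply inv_le_one_of_one_le₀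
    rw [Real.one_le_sqrt]
    norm_num
  have h6 := mul_le_mul_of_nonneg_left hI hs2.le
  have h7 : S * ∫ t in ES S, H t ≤ S * 0.005 := mul_le_mul_of_nonneg_left hE hS
  have h8 : (√2)⁻¹ * (S * ∫ t in ES S, H t) ≤ 0.005 * S := by
    have h9 : (√2)⁻¹ * (S * ∫ t in ES S, H t) ≤ (√2)⁻¹ * (S * 0.005) :=
      mul_le_mul_of_nonneg_left h7 hs2.le
    have h10 : (√2)⁻¹ * (S * 0.005) ≤ 1 * (S * 0.005) :=
      mul_le_mul_of_nonneg_right hs3 (by positivity)
    linarith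
  rw [mul_sub] at h6
  linarith

end Pool.Agent.Helper31.LOC
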