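import Pool.Agent.Helper31.LOC.C
import Pool.Agent.Helper78.MEI.Asm
import Pool.Agent.Helper82.M2.NearR

/-!
# Local minimality: assembly of the four faces
-/

set_option autoImplicit false

namespace Pool.Agent.Helper31.LOC

open Set Metric MeasureTheory Filter Topology Helper93.MEI Helper80.CW Helper14.CW
open Helper14.MEI2 Pool.Agent.Helper73.MEI Helper82.M2 Helper82.CW
open Helper37.MEI (LL)
open Helper33.MEI (Wi)
open scoped RealInnerProductSpace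

/-- the inputs of the face theorem for the vertex `j` -/
def Inp (K : Set E3) (σ : Measure (E3 × E3)) (a : Fin 4 → E3) (S : Fin 4 → ℝ) (T : ℝ)
    (j : Fin 4) : Prop :=
  0 ≤ LL σ a j ∧ LL σ a j ≤ T ∧ ∃ (τ : Equiv.Perm (Fin 4)) (N N' : Fin 3 → ℝ), τ 0 = j ∧
    (∀ k, 0.0005 ≤ N k) ∧ (∀ k, 0.001 ≤ N' k) ∧ N 0 + N 1 + N 2 ≤ 0.2428 ∧
    N' 0 + N' 1 + N' 2 ≤ 1.2285 ∧
    (∀ q ∈ K, LL σ a j ≤ 2 * (N 0 * yv a (τ 0) (τ 1) q + N 1 * yv a (τ 0) (τ 2) q +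
      N 2 * yv a (τ 0) (τ 3) q)) ∧
    (∀ q ∈ K, S j ≤ 2 * (N' 0 * yv a (τ 0) (τ 1) q + N' 1 * yv a (τ 0) (τ 2) q +
      N' 2 * yv a (τ 0) (τ 3) q))

/-- all inputs exist for small violations -/
def InpAll : Prop := ∀ (K : Set E3) (σ : Measure (E3 × E3)), IsFiniteMeasure σ →
  ∀ a c : Fin 4 → E3, CN K σ a c → ∀ S : Fin 4 → ℝ, Viol K a S → ∀ T : ℝ, 0 ≤ T → T ≤ 1e-4 →
    (∀ i, S i ≤ T) → ∀ j, Inp K σ a S T j

/-- **core statement** for small defect -/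
theorem coreX_of_inp (hinp : InpAll) : ∃ X : ℝ, 0 < X ∧ X ≤ 0.2 ∧ CoreX X 1e-3 := by
  obtain ⟨S1, h0, h1, hface⟩ := face_small
  refine ⟨S1 / 2, by positivity, by norm_num at h1 ⊢; linarith, ?_⟩
  intro K σ hσ a c hC hX S hV i
  have hX1 : S1 / 2 ≤ 0.21 := by norm_num at h1 ⊢; linarith
  have hsm : ∀ i, S i ≤ S1 := by
    intro i
    have h2 := viol_small hC hV hX1 hX i
    have h3 := hV.nn i
    have h4 : S i ≤ (2 - 5.5 * (S1 / 2)) * S i := by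
      have : (1 : ℝ) ≤ 2 - 5.5 * (S1 / 2) := by norm_num at h1 ⊢; linarith
      nlinarith
    linarith
  obtain ⟨i0, -, hi0⟩ := Finset.exists_max_image Finset.univ S ⟨0, Finset.mem_univ _⟩
  set T : ℝ := S i0 with hT
  have hT0 : 0 ≤ T := hV.nn i0
  have hT1 : T ≤ S1 := hsm i0
  have hST : ∀ i, S i ≤ T := fun i => hi0 i (Finset.mem_univ _)
  have hQ : ∀ i, ∀ q ∈ K, Qv a i q ≤ T := fun i q hq => (hV.le i q hq).trans (hST i)
  have hW : ∀ j, LL σ a j + 0.127 * S j - 0.005 * T ≤ Wi a j K σ 3.89 := by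
    intro j
    obtain ⟨l0, l1, τ, N, N', rfl, n1, n2, n3, n4, n5, n6⟩ :=
      hinp K σ hσ a c hC S hV T hT0 (hT1.trans h1) hST j
    exact hface hC.pm hC.ha hC.hp hC.hull T hT0 hT1 hQ τ N N' n1 n2 n3 n4 (LL σ a (τ 0))
      (S (τ 0)) l0 l1 (hV.nn _) (hST _) n5 n6
  choose B hB using fun (m : Fin 3) (e : Bool) => Fr_exists (a := fun i => a (pr m e i))
    (fun i j hij => hC.ha _ _ (fun h => hij ((pr m e).injective h)))
  have hasm := Helper78.MEI.asm1 (B := B) hC.pm hC.ha hC.hp hC.hz hC.hd hC.hull hB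
    (s := S) hV.nn (fun i => (hsm i).trans (by norm_num at h1 ⊢; linarith)) hV.le
  have hsum : T ≤ ∑ j, S j := Finset.single_le_sum (f := S) (fun j _ => hV.nn j)
    (Finset.mem_univ i0)
  rw [Fin.sum_univ_four] at hasm hsum
  have w0 := hW 0
  have w1 := hW 1
  have w2 := hW 2
  have w3 := hW 3
  have hi := hST i
  norm_num at *
  linarith

/-- the function `X ↦ 1/4 + 1/(4(2+X))` -/
theorem exists_R {X : ℝ} (hX : 0 < X) (hX1 : X ≤ 0.2) : ∃ R' R : ℝ, 0.6026 ≤ R' ∧ R' < R ∧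
    R < √(3 / 8) ∧ 1 / 4 + 1 / (4 * (2 + X)) ≤ R' ^ 2 := by
  set r : ℝ := √(1 / 4 + 1 / (4 * (2 + X))) with hr
  have h1 : (1 : ℝ) / 4 + 1 / (4 * (2 + X)) < 3 / 8 := by
    have : 1 / (4 * (2 + X)) < 1 / 8 := by
      apply one_div_lt_one_div_of_lt (by norm_num)
      linarith
    linarith
  have h2 : r < √(3 / 8) := Real.sqrt_lt_sqrt (by positivity) h1
  have h3 : (0.6026 : ℝ) ≤ r := by
    apply Real.le_sqrt_of_sq_le
    have : (1 : ℝ) / 8.8 ≤ 1 / (4 * (2 + X)) := by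
      apply one_div_le_one_div_of_le (by positivity)
      norm_num
      linarith
    norm_num at this ⊢
    linarith
  refine ⟨r, (r + √(3 / 8)) / 2, h3, by linarith, by linarith, ?_⟩
  rw [hr, Real.sq_sqrt (by positivity)]

/-- **the local theorem from the inputs** -/
theorem loc_of_inp (hinp : InpAll) : ∃ R : ℝ, R < √(3 / 8) ∧ ∀ K : Set E3, IsCompact K →
    Convex ℝ K → Width1 K → (¬ ∃ x, K ⊆ closedBall x R) →
    ENNReal.ofReal Helper96.MEI.VMe ≤ volume K ∧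
      (volume K = ENNReal.ofReal Helper96.MEI.VMe ↔
        ∃ a : Fin 4 → E3, (∀ i j, i ≠ j → dist (a i) (a j) = 1) ∧
        ∃ c : Fin 3 → Bool, K = Helper96.MEI.MB a c) := by
  obtain ⟨X, hX, hX1, hcore⟩ := coreX_of_inp hinp
  obtain ⟨R', R, h1, h2, h3, h4⟩ := exists_R hX hX1
  exact ⟨R, h3, fun K hK hc hw hno =>
    loc_of_coreX (κ := 1e-3) (by norm_num) h1 h2 hX.le (hX1.trans (by norm_num)) h4 hcore hK hc
      hw hno⟩

end Pool.Agent.Helper31.LOC
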