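import Pool.Agent.Helper31.LOC.D

/-!
# Local minimality: the inputs of the face theorem
-/

set_option autoImplicit false

namespace Pool.Agent.Helper31.LOC

open Set Metric MeasureTheory Filter Topology Helper93.MEI Helper80.CW Helper14.CW
open Helper14.MEI2 Pool.Agent.Helper73.MEI Helper82.M2 Helper82.CW
open Helper37.MEI
open Pool.Agent.Helper95.MEI.Cst (fAs fAs_bd)
open scoped RealInnerProductSpace

variable {K : Set E3} {σ : Measure (E3 × E3)} {a : Fin 4 → E3}

theorem vx_card : ∀ j : Fin 4, (Finset.univ.filter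
    (fun x : Fin 3 × Bool × Bool => vx x.1 x.2.1 x.2.2 = j)).card = 3 := by
  decide

/-- the loss of an arc is at most `T` times its mass -/
theorem cL_le_cm [IsFiniteMeasure σ] (ha : ∀ i j, i ≠ j → dist (a i) (a j) = 1)
    (hK : IsCompact K) (hσ : ∀ᵐ z ∂σ, z.1 ∈ K ∧ z.2 ∈ K) (hp : ∀ x ∈ K, Pl a x) {T : ℝ}
    (hQ : ∀ i, ∀ x ∈ K, Qv a i x ≤ T) (m : Fin 3) (e i : Bool) :
    cL σ a m e i ≤ T * cm σ a m e i := by
  have hE : MeasurableSet (EE a m e) := Pool.Agent.Helper95.MEI.Fub.Zp_meas _ _ _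
  unfold cL cm
  rw [pp_int hE (fun x => wt (ap a m e) i x) (vx m e i), ← integral_const_mul]
  apply integral_mono_ae
  · exact (cont_int hK hσ (((wt_cont _ i).comp continuous_fst).mul
      ((Pool.Agent.Helper95.MEI.Fub.Qv_cont a _).comp continuous_snd))).integrableOn
  · exact ((cont_int hK hσ ((wt_cont _ i).comp continuous_fst)).const_mul T).integrableOn
  · filter_upwards [ae_restrict_of_ae hσ] with z hz
    have h1 := wt_nonneg (hgp ha m e) i (Pl_perm _ (hp _ hz.1))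
    have h2 := mul_le_mul_of_nonneg_left (hQ (vx m e i) z.2 hz.2) h1
    have h3 : wt (ap a m e) i z.1 * T = T * wt (ap a m e) i z.1 := mul_comm _ _
    calc wt (ap a m e) i z.1 * Qv a (vx m e i) z.2 ≤ wt (ap a m e) i z.1 * T := h2
      _ = _ := h3

theorem LL_le_mm [IsFiniteMeasure σ] (ha : ∀ i j, i ≠ j → dist (a i) (a j) = 1)
    (hK : IsCompact K) (hσ : ∀ᵐ z ∂σ, z.1 ∈ K ∧ z.2 ∈ K) (hp : ∀ x ∈ K, Pl a x) {T : ℝ}
    (hQ : ∀ i, ∀ x ∈ K, Qv a i x ≤ T) (j : Fin 4) : LL σ a j ≤ T * mm σ a j := by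
  unfold LL mm
  rw [Finset.mul_sum]
  apply Finset.sum_le_sum
  intro x _
  split_ifs
  · exact cL_le_cm ha hK hσ hp hQ _ _ _
  · rw [mul_zero]

/-- the mass of the arcs of one vertex -/
theorem mm_le3 {B : Fin 3 → Bool → OrthonormalBasis (Fin 3) ℝ E3} [IsFiniteMeasure σ]
    (h : PM K σ) (ha : ∀ i j, i ≠ j → dist (a i) (a j) = 1) (hp : ∀ x ∈ K, Pl a x)
    (hB : ∀ m e, Fr (fun i => a (pr m e i)) (B m e)) {T : ℝ} (hT : 0 ≤ T) (hT1 : T ≤ 1e-4)
    (hQ : ∀ i, ∀ q ∈ K, Qv a i q ≤ T) (j : Fin 4) : mm σ a j ≤ 0.194 := by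
  have hc : ∀ m e i, cm σ a m e i ≤ 0.0646 := by
    intro m e i
    have h1 := cm_le ha h hp hB (s := fun _ => T) (fun _ => hT) hQ m e i (by
      norm_num at hT1 ⊢
      linarith)
    have h2 := fAs_bd.2
    have h3 := cm_nonneg ha h.mem hp m e i
    simp only [sub_self] at h1
    norm_num at h1 h2 hT1 ⊢
    nlinarith
  unfold mm
  calc (∑ x : Fin 3 × Bool × Bool, if vx x.1 x.2.1 x.2.2 = j then cm σ a x.1 x.2.1 x.2.2 else 0)
      ≤ ∑ x : Fin 3 × Bool × Bool, if vx x.1 x.2.1 x.2.2 = j then (0.0646 : ℝ) else 0 := by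
        apply Finset.sum_le_sum
        intro x _
        split_ifs
        · exact hc _ _ _
        · exact le_rfl
    _ = 3 * 0.0646 := by
        rw [← Finset.sum_filter, Finset.sum_const, vx_card j]
        norm_num
    _ ≤ 0.194 := by norm_num

/-- reordering of a sum by a permutation -/
theorem sum_tau (τ : Equiv.Perm (Fin 4)) {j : Fin 4} (hj : τ 0 = j) (f : Fin 4 → ℝ) :
    (∑ k, if k = j then 0 else f k) = f (τ 1) + f (τ 2) + f (τ 3) := by
  rw [← Equiv.sum_comp τ, Fin.sum_univ_four, hj, if_pos rfl]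
  have h1 : τ 1 ≠ j := by rw [← hj]; exact fun h => absurd (τ.injective h) (by decide)
  have h2 : τ 2 ≠ j := by rw [← hj]; exact fun h => absurd (τ.injective h) (by decide)
  have h3 : τ 3 ≠ j := by rw [← hj]; exact fun h => absurd (τ.injective h) (by decide)
  rw [if_neg h1, if_neg h2, if_neg h3]
  ring

/-- the load inequality in the order of the permutation -/
theorem load_tau (τ : Equiv.Perm (Fin 4)) {q : E3} (hq : Pl a q) {M : Fin 4 → ℝ} {L c : ℝ}
    (hc : 0 ≤ c) (h : L ≤ 2 * ∑ k, M k * yv a (τ 0) k q) :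
    L ≤ 2 * ((pp (M (τ 1)) + c) * yv a (τ 0) (τ 1) q + (pp (M (τ 2)) + c) * yv a (τ 0) (τ 2) q +
      (pp (M (τ 3)) + c) * yv a (τ 0) (τ 3) q) := by
  rw [← Equiv.sum_comp τ, Fin.sum_univ_four, yv_self, mul_zero, zero_add] at h
  have key : ∀ i : Fin 4, i ≠ 0 → M (τ i) * yv a (τ 0) (τ i) q ≤
      (pp (M (τ i)) + c) * yv a (τ 0) (τ i) q := by
    intro i hi
    have hne : τ 0 ≠ τ i := fun h => hi (τ.injective h).symm
    apply mul_le_mul_of_nonneg_right _ (yv_nonneg hq hne)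
    have := le_pp (M (τ i))
    linarith
  have k1 := key 1 (by decide)
  have k2 := key 2 (by decide)
  have k3 := key 3 (by decide)
  linarith

/-- **all inputs exist** -/
theorem inpAll : InpAll := by
  intro K σ hσ a c hC S hV T hT0 hT1 hST j
  have ha := hC.ha
  have hp := hC.hp
  have hg := gram_of_dist ha
  obtain ⟨B, hB⟩ := frames ha
  have hQ : ∀ i, ∀ q ∈ K, Qv a i q ≤ T := fun i q hq => (hV.le i q hq).trans (hST i)
  have hmm := mm_le3 hC.pm ha hp hB hT0 hT1 hQ j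
  have hmm0 := mm_nonneg ha hC.pm.mem hp j
  have hLL0 := LL_nonneg ha hC.pm.mem hp j
  have hLL := LL_le_mm ha hC.cpt hC.pm.mem hp hQ j
  have hLT : LL σ a j ≤ T := by nlinarith
  have hrt : √(3 / 2 + 2 * T) ≤ 1.225 := by
    rw [Real.sqrt_le_left (by norm_num)]
    norm_num at hT1 ⊢
    linarith
  have hrt0 : 0 ≤ √(3 / 2 + 2 * T) := Real.sqrt_nonneg _
  set τ : Equiv.Perm (Fin 4) := Equiv.swap 0 j with hτ
  have hτ0 : τ 0 = j := by rw [hτ, Equiv.swap_apply_left]
  -- the arcs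
  have hsM := sum_MM ha hC.cpt hC.pm.mem hp hT0 hQ j
  rw [sum_tau τ hτ0] at hsM
  -- the farthest point
  obtain ⟨z, hzK, hz⟩ : ∃ z ∈ K, S j ≤ pp (Qv a j z) := by
    rcases hV.att j with h0 | ⟨x, hx, h1⟩
    · obtain ⟨x, hx⟩ := hC.ne
      exact ⟨x, hx, by rw [h0]; exact pp_nonneg _⟩
    · exact ⟨x, hx, by rw [← h1]; exact le_pp _⟩
  have hsB := sum_pp_le hg (hp z hzK) hT0 (fun i => hQ i z hzK) j
  rw [sum_tau τ hτ0] at hsB
  refine ⟨hLL0, hLT, τ, fun k => pp (MM σ a j (τ k.succ)) + 0.0005,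
    fun k => pp (bar a (τ k.succ) z) + 0.001, hτ0, ?_, ?_, ?_, ?_, ?_, ?_⟩
  · intro k
    have := pp_nonneg (MM σ a j (τ k.succ))
    simp only
    linarith
  · intro k
    have := pp_nonneg (bar a (τ k.succ) z)
    simp only
    linarith
  · show pp (MM σ a j (τ 1)) + 0.0005 + (pp (MM σ a j (τ 2)) + 0.0005) +
      (pp (MM σ a j (τ 3)) + 0.0005) ≤ 0.2428
    have h1 := mul_le_mul hrt hmm hmm0 (by norm_num)
    norm_num at h1 hsM ⊢
    linarith
  · show pp (bar a (τ 1) z) + 0.001 + (pp (bar a (τ 2) z) + 0.001) +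
      (pp (bar a (τ 3) z) + 0.001) ≤ 1.2285
    linarith
  · intro q hq
    have h1 := cpl ha hC.cpt hC.pm.mem hp j (r := q) (fun z hz => hC.hd z hz q hq)
    have h2 : LL σ a j ≤ 2 * ∑ k, MM σ a j k * yv a j k q := by
      have : 0 ≤ mm σ a j * ‖a j - q‖ ^ 2 := by positivity
      linarith
    rw [← hτ0] at h2
    have h3 := load_tau τ (hp q hq) (c := 0.0005) (by norm_num) h2
    rw [hτ0] at h3
    rw [hτ0]
    exact h3
  · intro q hq
    have h1 := coupling hg j (hC.hd z hzK q hq)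
    have hy : 0 ≤ 2 * ((pp (bar a (τ 1) z) + 0.001) * yv a (τ 0) (τ 1) q +
        (pp (bar a (τ 2) z) + 0.001) * yv a (τ 0) (τ 2) q +
        (pp (bar a (τ 3) z) + 0.001) * yv a (τ 0) (τ 3) q) := by
      have key : ∀ i : Fin 4, i ≠ 0 → 0 ≤ (pp (bar a (τ i) z) + 0.001) *
          yv a (τ 0) (τ i) q := by
        intro i hi
        have hne : τ 0 ≠ τ i := fun h => hi (τ.injective h).symm
        have := pp_nonneg (bar a (τ i) z)
        exact mul_nonneg (by linarith) (yv_nonneg (hp q hq) hne)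
      have k1 := key 1 (by decide)
      have k2 := key 2 (by decide)
      have k3 := key 3 (by decide)
      linarith
    have h2 : Qv a j z ≤ 2 * ∑ k, bar a k z * yv a j k q := by
      have : 0 ≤ ‖a j - q‖ ^ 2 := by positivity
      linarith
    rw [← hτ0] at h2
    have h3 := load_tau τ (hp q hq) (M := fun k => bar a k z) (c := 0.001) (by norm_num) h2
    refine hz.trans ?_
    unfold pp at hy h3 ⊢
    apply max_le _ hy
    rw [← hτ0]
    exact h3

/-- **Local minimality of the Meissner bodies.** There is a radius `R` smaller than the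
circumradius `√(3/8)` of the regular tetrahedron of edge one such that among the bodies of constant
width one which lie in no ball of radius `R` the Meissner bodies and only they have the smallest
volume. -/
theorem loc : ∃ R : ℝ, R < √(3 / 8) ∧ ∀ K : Set E3, IsCompact K →
    Convex ℝ K → Width1 K → (¬ ∃ x, K ⊆ closedBall x R) →
    ENNReal.ofReal Helper96.MEI.VMe ≤ volume K ∧
      (volume K = ENNReal.ofReal Helper96.MEI.VMe ↔
        ∃ a : Fin 4 → E3, (∀ i j, i ≠ j → dist (a i) (a j) = 1) ∧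
        ∃ c : Fin 3 → Bool, K = Helper96.MEI.MB a c) :=
  loc_of_inp inpAll

end Pool.Agent.Helper31.LOC
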